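import Pool.Agent.W2helper6.FA.Deg

/-!
# Ore extensions
-/

namespace Pool.Agent.W2helper6.FA

open Pool.Agent.N506.EX

universe u v w

section

variable {S R : Type u} [Ring S] [Ring R] {inc : S →+* R} {x : R} {σ : S ≃+* S} {δ : S → S}
  (hc : ∀ s, inc s * x = x * inc (σ s) + inc (δ s)) (h : RightBasis inc fun n : ℕ => x ^ n)

/-- The elements of degree less than `n`. -/
noncomputable def DD (h : RightBasis inc fun n : ℕ => x ^ n) (n : ℕ) : AddSubgroup R where
  carrier := {r | ∀ i, n ≤ i → h.co r i = 0}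
  zero_mem' := fun i _ => by rw [map_zero]; rfl
  add_mem' := fun {a b} ha hb i hi => by
    rw [map_add, Finsupp.add_apply, ha i hi, hb i hi, add_zero]
  neg_mem' := fun {a} ha i hi => by rw [map_neg, Finsupp.neg_apply, ha i hi, neg_zero]

theorem mem_DD {n : ℕ} {r : R} : r ∈ DD h n ↔ ∀ i, n ≤ i → h.co r i = 0 := Iff.rfl

theorem DD_mono {n m : ℕ} (hnm : n ≤ m) {r : R} (hr : r ∈ DD h n) : r ∈ DD h m :=
  fun i hi => hr i (hnm.trans hi)

theorem DD_zero {r : R} (hr : r ∈ DD h 0) : r = 0 := by
  have h1 : h.co r = 0 := by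
    ext i
    exact hr i (Nat.zero_le i)
  exact (AddEquiv.map_eq_zero_iff h.co).mp h1

theorem co_mono (i : ℕ) (s : S) : h.co (x ^ i * inc s) = Finsupp.single i s := by
  have h1 : x ^ i * inc s = comb inc (fun n : ℕ => x ^ n) (Finsupp.single i s) := by
    rw [comb_single]
  rw [h1, h.co_comb]

theorem mono_mem {i n : ℕ} (hi : i < n) (s : S) : x ^ i * inc s ∈ DD h n := by
  intro k hk
  rw [co_mono, Finsupp.single_eq_of_ne (by omega)]

theorem DD_expand {n : ℕ} {r : R} (hr : r ∈ DD h n) :
    r = ∑ i ∈ Finset.range n, x ^ i * inc (h.co r i) := by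
  refine (h.sum_co r (Finset.range n) ?_).symm
  intro i hi
  exact hr i (by simpa using hi)

theorem exists_DD (r : R) : ∃ n, r ∈ DD h n := by
  refine ⟨(h.co r).support.sup id + 1, fun i hi => ?_⟩
  by_contra h1
  have := Finset.le_sup (f := id) (Finsupp.mem_support_iff.mpr h1)
  simp only [id] at this
  omega

/-- The top coefficient. -/
theorem exists_top {r : R} (hr : r ≠ 0) :
    ∃ n s, s ≠ 0 ∧ r ∈ DD h (n + 1) ∧ h.co r n = s ∧ r - x ^ n * inc s ∈ DD h n := by
  classical
  have h1 : (h.co r).support.Nonempty := by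
    rw [Finsupp.support_nonempty_iff]
    intro h1
    exact hr ((AddEquiv.map_eq_zero_iff h.co).mp h1)
  set n := (h.co r).support.max' h1 with hn
  have h2 : n ∈ (h.co r).support := Finset.max'_mem _ _
  have h3 : ∀ i, n < i → h.co r i = 0 := by
    intro i hi
    by_contra h4
    have := Finset.le_max' _ i (Finsupp.mem_support_iff.mpr h4)
    omega
  refine ⟨n, h.co r n, Finsupp.mem_support_iff.mp h2, fun i hi => h3 i (by omega), rfl, ?_⟩
  intro i hi
  rw [map_sub, co_mono, Finsupp.sub_apply]
  rcases eq_or_lt_of_le hi with h4 | h4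
  · rw [← h4, Finsupp.single_eq_same, sub_self]
  · rw [h3 i h4, Finsupp.single_eq_of_ne (by omega), sub_zero]

theorem DD_mul_inc {n : ℕ} {r : R} (hr : r ∈ DD h n) (s : S) : r * inc s ∈ DD h n := by
  intro i hi
  rw [h.co_mul, hr i hi, zero_mul]

theorem x_mul_DD {n : ℕ} {r : R} (hr : r ∈ DD h n) : x * r ∈ DD h (n + 1) := by
  rw [DD_expand h hr, Finset.mul_sum]
  refine sum_mem fun i hi => ?_
  rw [← mul_assoc, ← pow_succ']
  exact mono_mem h (by have := Finset.mem_range.mp hi; omega) _

theorem pow_mul_DD (k : ℕ) {n : ℕ} {r : R} (hr : r ∈ DD h n) : x ^ k * r ∈ DD h (n + k) := by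
  induction k with
  | zero => simpa using hr
  | succ k ih =>
    rw [pow_succ', mul_assoc, ← add_assoc]
    exact x_mul_DD h ih

include hc in
theorem DD_mul_x {n : ℕ} {r : R} (hr : r ∈ DD h n) : r * x ∈ DD h (n + 1) := by
  rw [DD_expand h hr, Finset.sum_mul]
  refine sum_mem fun i hi => ?_
  have hi' := Finset.mem_range.mp hi
  rw [mul_assoc, hc, mul_add, ← mul_assoc, ← pow_succ]
  exact add_mem (mono_mem h (by omega) _) (mono_mem h (by omega) _)

/-- Iterates of the automorphism. -/
def itσ (σ : S ≃+* S) : ℕ → S ≃+* S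
  | 0 => RingEquiv.refl S
  | n + 1 => (itσ σ n).trans σ

include hc in
theorem inc_mul_pow (s : S) (k : ℕ) : inc s * x ^ k - x ^ k * inc (itσ σ k s) ∈ DD h k := by
  induction k with
  | zero =>
    have : inc s * x ^ 0 - x ^ 0 * inc (itσ σ 0 s) = 0 := by
      rw [pow_zero, mul_one, one_mul]
      exact sub_self _
    rw [this]
    exact zero_mem _
  | succ k ih =>
    have h1 : inc s * x ^ (k + 1) - x ^ (k + 1) * inc (itσ σ (k + 1) s) =
        (inc s * x ^ k - x ^ k * inc (itσ σ k s)) * x + x ^ k * inc (δ (itσ σ k s)) := by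
      have h2 := hc (itσ σ k s)
      have h3 : inc (itσ σ (k + 1) s) = inc (σ (itσ σ k s)) := rfl
      rw [h3, sub_mul, mul_assoc (x ^ k) (inc (itσ σ k s)) x, h2, mul_add, pow_succ]
      noncomm_ring
    rw [h1]
    exact add_mem (DD_mul_x hc h ih) (mono_mem h (by omega) _)

include hc in
theorem inc_mul_pow_mem (s : S) (k : ℕ) : inc s * x ^ k ∈ DD h (k + 1) := by
  have h1 : inc s * x ^ k = (inc s * x ^ k - x ^ k * inc (itσ σ k s)) +
      x ^ k * inc (itσ σ k s) := by abel
  rw [h1]
  exact add_mem (DD_mono h (by omega) (inc_mul_pow hc h s k)) (mono_mem h (by omega) _)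

include hc in
theorem term_mem (i k : ℕ) (s t : S) : x ^ i * inc s * (x ^ k * inc t) ∈ DD h (i + k + 1) := by
  have h1 : x ^ i * inc s * (x ^ k * inc t) = x ^ i * (inc s * x ^ k * inc t) := by noncomm_ring
  rw [h1]
  exact DD_mono h (by omega) (pow_mul_DD h i (DD_mul_inc h (inc_mul_pow_mem hc h s k) t))

include hc in
theorem mul_mem_DD {n m k : ℕ} {a b : R} (ha : a ∈ DD h n) (hb : b ∈ DD h m)
    (hk : ∀ i l, i < n → l < m → i + l < k) : a * b ∈ DD h k := by
  rw [DD_expand h ha, DD_expand h hb, Finset.sum_mul_sum]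
  refine sum_mem fun i hi => sum_mem fun l hl => ?_
  exact DD_mono h (hk i l (Finset.mem_range.mp hi) (Finset.mem_range.mp hl)) (term_mem hc h i l _ _)

include hc in
/-- The top coefficient of a product. -/
theorem co_mul_top {n m : ℕ} {a b : R} {s t : S} (ha : a - x ^ n * inc s ∈ DD h n)
    (hb : b - x ^ m * inc t ∈ DD h m) :
    a * b - x ^ (n + m) * inc (itσ σ m s * t) ∈ DD h (n + m) := by
  have h1 : a * b - x ^ (n + m) * inc (itσ σ m s * t) =
      (a - x ^ n * inc s) * b + (x ^ n * inc s) * (b - x ^ m * inc t) +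
        x ^ n * ((inc s * x ^ m - x ^ m * inc (itσ σ m s)) * inc t) := by
    rw [pow_add, map_mul]
    noncomm_ring
  have hb' : b ∈ DD h (m + 1) := by
    have : b = (b - x ^ m * inc t) + x ^ m * inc t := by abel
    rw [this]
    exact add_mem (DD_mono h (by omega) hb) (mono_mem h (by omega) _)
  rw [h1]
  refine add_mem (add_mem ?_ ?_) ?_
  · exact mul_mem_DD hc h ha hb' (fun i l hi hl => by omega)
  · exact mul_mem_DD hc h (mono_mem h (Nat.lt_succ_self n) s) hb (fun i l hi hl => by omega)
  · exact DD_mono h (by omega) (pow_mul_DD h n (DD_mul_inc h (inc_mul_pow hc h s m) t))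

theorem co_of_sub {n : ℕ} {r : R} {s : S} (hr : r - x ^ n * inc s ∈ DD h n) : h.co r n = s := by
  have h1 := hr n le_rfl
  rw [map_sub, co_mono, Finsupp.sub_apply, Finsupp.single_eq_same, sub_eq_zero] at h1
  exact h1

include hc h in
theorem ore_noZeroDivisors [NoZeroDivisors S] : NoZeroDivisors R where
  eq_zero_or_eq_zero_of_mul_eq_zero := by
    intro a b hab
    by_contra h1
    push Not at h1
    obtain ⟨n, s, hs, -, -, ha⟩ := exists_top h h1.1
    obtain ⟨m, t, ht, -, -, hb⟩ := exists_top h h1.2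
    have h2 := co_of_sub h (co_mul_top hc h ha hb)
    rw [hab, map_zero] at h2
    have h3 : itσ σ m s ≠ 0 := by
      intro h4
      exact hs ((map_eq_zero_iff _ (itσ σ m).injective).mp h4)
    exact mul_ne_zero h3 ht h2.symm

/-- The degree. -/
noncomputable def dg (h : RightBasis inc fun n : ℕ => x ^ n) (r : R) : ℤ :=
  (((h.co r).support.sup id : ℕ) : ℤ)

theorem dg_eq {n : ℕ} {r : R} {s : S} (hs : s ≠ 0) (hr : r - x ^ n * inc s ∈ DD h n) :
    dg h r = n := by
  have h1 := co_of_sub h hr
  have h2 : r ∈ DD h (n + 1) := by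
    have : r = (r - x ^ n * inc s) + x ^ n * inc s := by abel
    rw [this]
    exact add_mem (DD_mono h (by omega) hr) (mono_mem h (by omega) _)
  unfold dg
  congr 1
  apply le_antisymm
  · refine Finset.sup_le fun i hi => ?_
    by_contra h3
    exact (Finsupp.mem_support_iff.mp hi) (h2 i (by simp only [id] at h3; omega))
  · exact Finset.le_sup (f := id) (Finsupp.mem_support_iff.mpr (by rw [h1]; exact hs))

theorem dg_le {n : ℕ} {r : R} (hr : dg h r ≤ n) : r ∈ DD h (n + 1) := by
  intro i hi
  by_contra h1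
  have h2 := Finset.le_sup (f := id) (Finsupp.mem_support_iff.mpr h1)
  simp only [id] at h2
  unfold dg at hr
  omega

theorem le_dg {n : ℕ} {r : R} (hr : r ∈ DD h (n + 1)) : dg h r ≤ n := by
  unfold dg
  have : (h.co r).support.sup id ≤ n := by
    refine Finset.sup_le fun i hi => ?_
    by_contra h3
    exact (Finsupp.mem_support_iff.mp hi) (hr i (by simp only [id] at h3; omega))
  exact_mod_cast this

include hc in
theorem isDegree_dg [NoZeroDivisors S] : IsDegree (dg h) where
  mul := by
    intro a b ha hb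
    obtain ⟨n, s, hs, -, -, ha'⟩ := exists_top h ha
    obtain ⟨m, t, ht, -, -, hb'⟩ := exists_top h hb
    have h3 : itσ σ m s ≠ 0 := by
      intro h4
      exact hs ((map_eq_zero_iff _ (itσ σ m).injective).mp h4)
    rw [dg_eq h hs ha', dg_eq h ht hb', dg_eq h (mul_ne_zero h3 ht) (co_mul_top hc h ha' hb')]
    push_cast
    rfl
  add := by
    intro a b ha hb _
    obtain ⟨n, s, hs, ha1, -, ha'⟩ := exists_top h ha
    obtain ⟨m, t, ht, hb1, -, hb'⟩ := exists_top h hb
    rw [dg_eq h hs ha', dg_eq h ht hb']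
    have h1 : a + b ∈ DD h (max n m + 1) :=
      add_mem (DD_mono h (by omega) ha1) (DD_mono h (by omega) hb1)
    have h2 := le_dg h h1
    rw [Nat.cast_max] at h2
    exact h2

include hc in
/-- Left expansions. -/
theorem exists_left (n : ℕ) : ∀ r ∈ DD h n, ∃ l : ℕ → S,
    r = ∑ i ∈ Finset.range n, inc (l i) * x ^ i := by
  induction n with
  | zero =>
    intro r hr
    exact ⟨fun _ => 0, by rw [DD_zero h hr]; simp⟩
  | succ n ih =>
    intro r hr
    set s := (itσ σ n).symm (h.co r n) with hs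
    have h1 : r - inc s * x ^ n ∈ DD h n := by
      have h2 : r - x ^ n * inc (h.co r n) ∈ DD h n := by
        intro i hi
        rw [map_sub, co_mono, Finsupp.sub_apply]
        rcases eq_or_lt_of_le hi with h4 | h4
        · rw [← h4, Finsupp.single_eq_same, sub_self]
        · rw [hr i h4, Finsupp.single_eq_of_ne (by omega), sub_zero]
      have h3 := inc_mul_pow hc h s n
      rw [hs, RingEquiv.apply_symm_apply] at h3
      have h4 : r - inc s * x ^ n = (r - x ^ n * inc (h.co r n)) -
          (inc ((itσ σ n).symm (h.co r n)) * x ^ n - x ^ n * inc (h.co r n)) := by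
        rw [hs]
        abel
      rw [h4]
      exact sub_mem h2 h3
    obtain ⟨l, hl⟩ := ih _ h1
    refine ⟨fun i => if i = n then s else l i, ?_⟩
    rw [Finset.sum_range_succ]
    simp only [if_true]
    have h5 : ∑ i ∈ Finset.range n, inc (if i = n then s else l i) * x ^ i =
        ∑ i ∈ Finset.range n, inc (l i) * x ^ i := by
      refine Finset.sum_congr rfl fun i hi => ?_
      rw [if_neg (by have := Finset.mem_range.mp hi; omega)]
    rw [h5, ← hl]
    abel

include hc h in
/-- Left independence. -/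
theorem left_indep (n : ℕ) : ∀ l : ℕ → S, ∑ i ∈ Finset.range n, inc (l i) * x ^ i = 0 →
    ∀ i, i < n → l i = 0 := by
  induction n with
  | zero => intro l _ i hi; omega
  | succ n ih =>
    intro l hl
    rw [Finset.sum_range_succ] at hl
    have h1 : ∑ i ∈ Finset.range n, inc (l i) * x ^ i ∈ DD h n := by
      refine sum_mem fun i hi => ?_
      exact DD_mono h (Finset.mem_range.mp hi) (inc_mul_pow_mem hc h (l i) i)
    have h2 : (0 : R) - x ^ n * inc (itσ σ n (l n)) ∈ DD h n := by
      have h3 := inc_mul_pow hc h (l n) n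
      have h4 : (0 : R) - x ^ n * inc (itσ σ n (l n)) =
          ∑ i ∈ Finset.range n, inc (l i) * x ^ i +
            (inc (l n) * x ^ n - x ^ n * inc (itσ σ n (l n))) := by
        rw [← add_sub_assoc, hl]
      rw [h4]
      exact add_mem h1 h3
    have h5 := co_of_sub h h2
    rw [map_zero] at h5
    have h6 : l n = 0 := (map_eq_zero_iff _ (itσ σ n).injective).mp h5.symm
    rw [h6, map_zero, zero_mul, add_zero] at hl
    intro i hi
    rcases eq_or_lt_of_le (Nat.lt_succ_iff.mp hi) with h7 | h7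
    · rw [h7, h6]
    · exact ih l hl i h7

include hc h in
/-- Ore extensions of left Ore domains are left Ore. -/
theorem ore_LO [NoZeroDivisors S] [Nontrivial S] (hS : LO S) : LO R := by
  classical
  have := ore_noZeroDivisors hc h
  intro a b hb
  obtain ⟨N1, hN1⟩ := exists_DD h a
  obtain ⟨N2, hN2⟩ := exists_DD h b
  set K := max N1 N2 with hK
  have ha : a ∈ DD h (K + 1) := DD_mono h (by omega) hN1
  have hb' : b ∈ DD h (K + 1) := DD_mono h (by omega) hN2
  have hexp : ∀ c ∈ DD h (K + 1), ∀ i : Fin (K + 1), ∃ l : ℕ → S,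
      x ^ (i : ℕ) * c = ∑ k ∈ Finset.range (2 * K + 1), inc (l k) * x ^ k := by
    intro c hc' i
    exact exists_left hc h _ _ (DD_mono h (by omega) (pow_mul_DD h (i : ℕ) hc'))
  choose la hla using hexp a ha
  choose lb hlb using hexp b hb'
  obtain ⟨y, hy, hsys⟩ := hS.system' (ι := Fin (K + 1) ⊕ Fin (K + 1)) (κ := Fin (2 * K + 1))
    (by simp; omega) (fun i k => Sum.elim (fun i => la i k) (fun i => lb i k) i)
  set b' : R := ∑ i : Fin (K + 1), inc (y (Sum.inl i)) * x ^ (i : ℕ) with hb'def
  set a' : R := ∑ i : Fin (K + 1), inc (y (Sum.inr i)) * x ^ (i : ℕ) with ha'def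
  have hprod : ∀ (z : Fin (K + 1) → S) (c : R) (l : Fin (K + 1) → ℕ → S),
      (∀ i : Fin (K + 1), x ^ (i : ℕ) * c = ∑ k ∈ Finset.range (2 * K + 1), inc (l i k) * x ^ k) →
      (∑ i, inc (z i) * x ^ (i : ℕ)) * c =
        ∑ k ∈ Finset.range (2 * K + 1), inc (∑ i, z i * l i k) * x ^ k := by
    intro z c l hl
    rw [Finset.sum_mul]
    simp only [mul_assoc, hl, Finset.mul_sum, map_sum, Finset.sum_mul]
    rw [Finset.sum_comm]
    refine Finset.sum_congr rfl fun k _ => Finset.sum_congr rfl fun i _ => ?_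
    rw [map_mul, mul_assoc]
  have h1 : b' * a + a' * b = 0 := by
    rw [hb'def, ha'def, hprod _ a la hla, hprod _ b lb hlb, ← Finset.sum_add_distrib]
    refine Finset.sum_eq_zero fun k hk => ?_
    have h2 := hsys ⟨k, Finset.mem_range.mp hk⟩
    rw [Fintype.sum_sum_type] at h2
    simp only [Sum.elim_inl, Sum.elim_inr] at h2
    rw [← add_mul, ← map_add, h2, map_zero, zero_mul]
  have hz : ∀ z : Fin (K + 1) → S, ∑ i : Fin (K + 1), inc (z i) * x ^ (i : ℕ) = 0 → z = 0 := by
    intro z hz
    have h3 : ∑ i ∈ Finset.range (K + 1), inc (if hi : i < K + 1 then z ⟨i, hi⟩ else 0) * x ^ i =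
        0 := by
      rw [← hz, Finset.sum_range]
      refine Finset.sum_congr rfl fun i _ => ?_
      rw [dif_pos i.2]
    funext i
    have h4 := left_indep hc h (K + 1) _ h3 i i.2
    rw [dif_pos i.2] at h4
    exact h4
  refine ⟨-a', b', ?_, ?_⟩
  · intro h2
    rw [h2, zero_mul, zero_add] at h1
    have h3 : a' = 0 := (mul_eq_zero.mp h1).resolve_right hb
    apply hy
    funext i
    rcases i with i | i
    · exact congrFun (hz _ h2) i
    · exact congrFun (hz _ h3) i
  · rw [neg_mul]
    exact eq_neg_of_add_eq_zero_left h1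

include hc h in
/-- Ore extensions of good left Ore domains are good. -/
theorem ore_good [NoZeroDivisors S] [Nontrivial S] (hS : LO S) {d : ℕ} (hd : Good S d) :
    Good R (d + 3) := by
  classical
  have := ore_noZeroDivisors hc h
  have : Nontrivial R := by
    refine ⟨⟨1, 0, fun h1 => ?_⟩⟩
    have h2 := h.co_e 0 0
    rw [if_pos rfl] at h2
    have h3 : h.co (x ^ 0) = 0 := by rw [pow_zero, h1, map_zero h.co]
    have h4 : h.co (x ^ 0) 0 = 1 := h2
    rw [h3] at h4
    exact zero_ne_one h4
  have hdeg := isDegree_dg hc h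
  have h1 : dg h (1 : R) = 0 := by
    have := hdeg.mul 1 1 one_ne_zero one_ne_zero
    rw [mul_one] at this
    omega
  have h' : RightBasis inc (fun n : ULift.{u} ℕ => x ^ n.down) := by
    have e1 : (fun c : ULift.{u} ℕ →₀ S => c.sum fun j s => x ^ j.down * inc s) =
        (fun c : ℕ →₀ S => c.sum fun j s => x ^ j * inc s) ∘
          (Finsupp.domCongr Equiv.ulift : (ULift.{u} ℕ →₀ S) ≃+ (ℕ →₀ S)) := by
      funext c
      simp only [Function.comp, Finsupp.domCongr_apply]
      rw [Finsupp.equivMapDomain_eq_mapDomain, Finsupp.sum_mapDomain_index]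
      · rfl
      · intro b
        rw [map_zero, mul_zero]
      · intro b m₁ m₂
        rw [map_add, mul_add]
    unfold RightBasis
    rw [e1]
    exact h.comp (AddEquiv.bijective _)
  have hco : ∀ r (i : ℕ), h'.co r ⟨i⟩ = h.co r i := by
    intro r i
    have h2 : r = comb inc (fun n : ULift.{u} ℕ => x ^ n.down)
        ((Finsupp.domCongr Equiv.ulift.symm : (ℕ →₀ S) ≃+ (ULift.{u} ℕ →₀ S)) (h.co r)) := by
      rw [comb_apply, Finsupp.domCongr_apply, Finsupp.equivMapDomain_eq_mapDomain,
        Finsupp.sum_mapDomain_index]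
      · exact (h.comb_co r).symm
      · intro b
        rw [map_zero, mul_zero]
      · intro b m₁ m₂
        rw [map_add, mul_add]
    conv_lhs => rw [h2]
    rw [h'.co_comb, Finsupp.domCongr_apply, Finsupp.equivMapDomain_apply]
    rfl
  refine good_free h' ⟨0⟩ (pow_zero x) (fun m => {r | r = 0 ∨ dg h r ≤ m})
    (bdd_degree (ore_LO hc h hS) hdeg) ?_ ?_
    (fun m => (Finset.range (m + 1)).map ⟨ULift.up, ULift.up_injective⟩) ?_ hd
  · intro m j
    refine ⟨m + j.down + 1, ?_⟩
    rintro r (hr | hr)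
    · exact Or.inl (by rw [hr, zero_mul])
    · by_cases h2 : r * x ^ j.down = 0
      · exact Or.inl h2
      · right
        have h3 : r ∈ DD h (m + 1) := dg_le h hr
        have h4 : x ^ j.down ∈ DD h (j.down + 1) := by
          have := mono_mem h (Nat.lt_succ_self j.down) (1 : S)
          rwa [map_one, mul_one] at this
        have h5 := mul_mem_DD hc h h3 h4 (k := m + j.down + 1 + 1) (fun i l hi hl => by omega)
        have h6 := le_dg h h5
        push_cast at h6 ⊢
        exact h6
  · intro m n hmn r hr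
    rcases hr with hr | hr
    · exact Or.inl hr
    · right
      have : (m : ℤ) ≤ n := by exact_mod_cast hmn
      exact hr.trans this
  · rintro m r hr ⟨j⟩ hj
    rw [hco]
    have h2 : r ∈ DD h (m + 1) := by
      rcases hr with hr | hr
      · rw [hr]
        exact zero_mem _
      · exact dg_le h hr
    apply h2
    by_contra h3
    apply hj
    rw [Finset.mem_map]
    exact ⟨j, Finset.mem_range.mpr (by omega), rfl⟩

end

end Pool.Agent.W2helper6.FA
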