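import Pool.Agent.W2helper6.FA.Tower

/-!
# Degree functions on Ore domains bound
-/

namespace Pool.Agent.W2helper6.FA

open Pool.Agent.N506.EX

universe u v w

/-- `w` is a degree function on the nonzero elements of `R`. -/
structure IsDegree {R : Type*} [Ring R] (w : R → ℤ) : Prop where
  mul : ∀ a b, a ≠ 0 → b ≠ 0 → w (a * b) = w a + w b
  add : ∀ a b, a ≠ 0 → b ≠ 0 → a + b ≠ 0 → w (a + b) ≤ max (w a) (w b)

section Frac

variable {R : Type u} [Ring R] [NoZeroDivisors R] (hLO : LO R) {E : Type v} [DivisionRing E]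
  (j : R →+* E) (hj : Function.Injective j) (hfrac : ∀ a : E, ∃ s r : R, s ≠ 0 ∧ j s * a = j r)
  (w : R → ℤ) (hmul : ∀ a b, a ≠ 0 → b ≠ 0 → w (a * b) = w a + w b)
  (hadd : ∀ a b, a ≠ 0 → b ≠ 0 → a + b ≠ 0 → min (w a) (w b) ≤ w (a + b))

/-- The discrete valuation of the division ring of fractions of an Ore domain. -/
noncomputable def dvOfOre (t : E) (ht : t ≠ 0) (hwt : vfrac j hfrac w t = 1) : DV E where
  v := vfrac j hfrac w
  map_mul := by
    intro a b ha hb
    have hjne : ∀ x : R, x ≠ 0 → j x ≠ 0 := fun x hx h => hx (hj (by rw [h, map_zero]))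
    have hab : a * b ≠ 0 := mul_ne_zero ha hb
    obtain ⟨s, r, hs, h1⟩ := hfrac a
    obtain ⟨s', r', hs', h2⟩ := hfrac b
    have hr : r ≠ 0 := by
      rintro rfl
      rw [map_zero] at h1
      exact (mul_ne_zero (hjne s hs) ha) h1
    have hr' : r' ≠ 0 := by
      rintro rfl
      rw [map_zero] at h2
      exact (mul_ne_zero (hjne s' hs') hb) h2
    obtain ⟨r'', s'', hs'', h3⟩ := hLO r s' hs'
    have hr'' : r'' ≠ 0 := by
      rintro rfl
      rw [zero_mul] at h3
      exact (mul_ne_zero hs'' hr) h3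
    have h4 : j (s'' * s) * (a * b) = j (r'' * r') := by
      rw [_root_.map_mul, _root_.map_mul, ← h2, mul_assoc, ← mul_assoc (j s) a b, h1, ← mul_assoc, ← _root_.map_mul, h3,
        _root_.map_mul, mul_assoc]
    rw [vfrac_eq hLO j hj hfrac w hmul hab (mul_ne_zero hs'' hs) h4,
      vfrac_eq hLO j hj hfrac w hmul ha hs h1, vfrac_eq hLO j hj hfrac w hmul hb hs' h2,
      hmul _ _ hs'' hs, hmul _ _ hr'' hr']
    have h5 := hmul _ _ hs'' hr
    have h6 := hmul _ _ hr'' hs'
    rw [h3] at h5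
    omega
  map_add := by
    intro a b ha hb hab
    have hjne : ∀ x : R, x ≠ 0 → j x ≠ 0 := fun x hx h => hx (hj (by rw [h, map_zero]))
    obtain ⟨s, r, hs, h1⟩ := hfrac a
    obtain ⟨s', r', hs', h2⟩ := hfrac b
    obtain ⟨u', u, hu, h3⟩ := hLO s s' hs'
    have hm : u * s ≠ 0 := mul_ne_zero hu hs
    have h4 : j (u * s) * a = j (u * r) := by rw [_root_.map_mul, mul_assoc, h1, _root_.map_mul]
    have h5 : j (u * s) * b = j (u' * r') := by rw [h3, _root_.map_mul, mul_assoc, h2, _root_.map_mul]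
    have h6 : j (u * s) * (a + b) = j (u * r + u' * r') := by rw [mul_add, h4, h5, _root_.map_add]
    have n1 : u * r ≠ 0 := by
      intro h
      rw [h, map_zero] at h4
      exact (mul_ne_zero (hjne _ hm) ha) h4
    have n2 : u' * r' ≠ 0 := by
      intro h
      rw [h, map_zero] at h5
      exact (mul_ne_zero (hjne _ hm) hb) h5
    have n3 : u * r + u' * r' ≠ 0 := by
      intro h
      rw [h, map_zero] at h6
      exact (mul_ne_zero (hjne _ hm) hab) h6
    rw [vfrac_eq hLO j hj hfrac w hmul ha hm h4, vfrac_eq hLO j hj hfrac w hmul hb hm h5,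
      vfrac_eq hLO j hj hfrac w hmul hab hm h6]
    have := hadd _ _ n1 n2 n3
    omega
  t := t
  t_ne := ht
  v_t := hwt

include hLO hj hmul in
theorem vfrac_j [Nontrivial R] {x : R} (hx : x ≠ 0) : vfrac j hfrac w (j x) = w x := by
  have hx' : j x ≠ 0 := fun h => hx (hj (by rw [h, map_zero]))
  rw [vfrac_eq hLO j hj hfrac w hmul hx' one_ne_zero (r := x) (by rw [map_one, one_mul])]
  have h2 := hmul 1 1 one_ne_zero one_ne_zero
  rw [mul_one] at h2
  omega

end Frac

/-- The elements of bounded degree form a bounding family. -/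
theorem bdd_degree {R : Type u} [Ring R] [NoZeroDivisors R] [Nontrivial R] (hLO : LO R)
    {w : R → ℤ} (hw : IsDegree w) : Bdd R (fun m => {x | x = 0 ∨ w x ≤ m}) := by
  -- the group of the values
  let H : AddSubgroup ℤ :=
    { carrier := {n | ∃ a b : R, a ≠ 0 ∧ b ≠ 0 ∧ n = w b - w a}
      zero_mem' := ⟨1, 1, one_ne_zero, one_ne_zero, by omega⟩
      add_mem' := by
        rintro _ _ ⟨a, b, ha, hb, rfl⟩ ⟨a', b', ha', hb', rfl⟩
        refine ⟨a * a', b * b', mul_ne_zero ha ha', mul_ne_zero hb hb', ?_⟩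
        rw [hw.mul _ _ ha ha', hw.mul _ _ hb hb']
        omega
      neg_mem' := by
        rintro _ ⟨a, b, ha, hb, rfl⟩
        exact ⟨b, a, hb, ha, by omega⟩ }
  have hw1 : w 1 = 0 := by
    have := hw.mul 1 1 one_ne_zero one_ne_zero
    rw [mul_one] at this
    omega
  obtain ⟨k, hk⟩ := Int.subgroup_cyclic H
  have hkm : ∀ n, n ∈ H ↔ k ∣ n := by
    intro n
    rw [hk, AddSubgroup.mem_closure_singleton]
    constructor
    · rintro ⟨c, rfl⟩
      exact ⟨c, by rw [smul_eq_mul, mul_comm]⟩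
    · rintro ⟨c, rfl⟩
      exact ⟨c, by rw [smul_eq_mul, mul_comm]⟩
  have hkw : ∀ x, x ≠ 0 → k ∣ w x := fun x hx => (hkm _).mp ⟨1, x, one_ne_zero, hx, by omega⟩
  by_cases hk0 : k = 0
  · refine Bdd.univ.mono fun _ => ⟨0, ?_⟩
    intro x _
    by_cases hx : x = 0
    · exact Or.inl hx
    · right
      have := hkw x hx
      rw [hk0, zero_dvd_iff] at this
      rw [this]
      simp
  obtain ⟨a, b, ha, hb, hab⟩ := (hkm k).mpr dvd_rfl
  -- the division ring of fractions
  have hOre : Nonempty (OreLocalization.OreSet (nonZeroDivisors R)) := by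
    rw [OreLocalization.nonempty_oreSet_iff_of_noZeroDivisors]
    intro r s
    obtain ⟨r', s', hs', h1⟩ := hLO r s (nonZeroDivisors.ne_zero s.2)
    exact ⟨r', ⟨s', mem_nonZeroDivisors_of_ne_zero hs'⟩, h1⟩
  obtain ⟨inst⟩ := hOre
  let E := OreLocalization (nonZeroDivisors R) R
  let j : R →+* E := OreLocalization.numeratorRingHom
  have hj : Function.Injective j := OreLocalization.numeratorHom_inj (by
    intro x hx
    exact (mem_nonZeroDivisors_iff.mp hx).1)
  have hfrac : ∀ a : E, ∃ s r, s ≠ 0 ∧ j s * a = j r := by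
    intro a
    induction a using OreLocalization.ind with
    | _ r s =>
      refine ⟨s, r, nonZeroDivisors.ne_zero s.2, ?_⟩
      change ((s : R) /ₒ 1) * (r /ₒ s) = r /ₒ 1
      exact OreLocalization.mul_cancel
  -- the valuation
  have hdiv : ∀ x, x ≠ 0 → k * (w x / k) = w x := fun x hx => Int.mul_ediv_cancel' (hkw x hx)
  have hmul : ∀ x y, x ≠ 0 → y ≠ 0 → -(w (x * y) / k) * k.sign = -(w x / k) * k.sign +
      -(w y / k) * k.sign := by
    intro x y hx hy
    rw [hw.mul x y hx hy, Int.add_ediv_of_dvd_left (hkw x hx)]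
    ring
  have hsign : k.sign = 1 ∨ k.sign = -1 := by
    rcases lt_trichotomy k 0 with h | h | h
    · exact Or.inr (Int.sign_eq_neg_one_of_neg h)
    · exact absurd h hk0
    · exact Or.inl (Int.sign_eq_one_of_pos h)
  have habs : ∀ x, x ≠ 0 → (w x / k) * k.sign = w x / |k| := by
    intro x hx
    rcases lt_or_gt_of_ne hk0 with h | h
    · rw [Int.sign_eq_neg_one_of_neg h, abs_of_neg h, Int.ediv_neg]
      ring
    · rw [Int.sign_eq_one_of_pos h, abs_of_pos h, mul_one]
  have hkpos : 0 < |k| := abs_pos.mpr hk0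
  have hadd : ∀ x y, x ≠ 0 → y ≠ 0 → x + y ≠ 0 →
      min (-(w x / k) * k.sign) (-(w y / k) * k.sign) ≤ -(w (x + y) / k) * k.sign := by
    intro x y hx hy hxy
    rw [neg_mul, neg_mul, neg_mul, habs x hx, habs y hy, habs _ hxy]
    have h1 := hw.add x y hx hy hxy
    rcases le_max_iff.mp h1 with h2 | h2
    · have := Int.ediv_le_ediv hkpos h2
      exact min_le_of_left_le (by omega)
    · have := Int.ediv_le_ediv hkpos h2
      exact min_le_of_right_le (by omega)
  set ww : R → ℤ := fun x => -(w x / k) * k.sign with hww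
  obtain ⟨t, ht, hvt⟩ : ∃ t : E, t ≠ 0 ∧ vfrac j hfrac ww t = 1 := by
    have hja : j a ≠ 0 := fun h => ha (hj (by rw [h, map_zero]))
    have hjb : j b ≠ 0 := fun h => hb (hj (by rw [h, map_zero]))
    rcases hsign with h | h
    · -- `w b - w a = k > 0`: `t = b⁻¹ a`
      refine ⟨(j b)⁻¹ * j a, mul_ne_zero (inv_ne_zero hjb) hja, ?_⟩
      rw [vfrac_eq hLO j hj hfrac ww hmul (mul_ne_zero (inv_ne_zero hjb) hja) hb (r := a)
        (by rw [← mul_assoc, mul_inv_cancel₀ hjb, one_mul])]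
      simp only [hww, h, mul_one]
      have h1 := hdiv a ha
      have h2 := hdiv b hb
      have h3 : k * (w b / k - w a / k) = k * 1 := by rw [mul_sub, h1, h2]; omega
      have h4 := mul_left_cancel₀ hk0 h3
      omega
    · refine ⟨(j a)⁻¹ * j b, mul_ne_zero (inv_ne_zero hja) hjb, ?_⟩
      rw [vfrac_eq hLO j hj hfrac ww hmul (mul_ne_zero (inv_ne_zero hja) hjb) ha (r := b)
        (by rw [← mul_assoc, mul_inv_cancel₀ hja, one_mul])]
      simp only [hww, h]
      have h1 := hdiv a ha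
      have h2 := hdiv b hb
      have h3 : k * (w b / k - w a / k) = k * 1 := by rw [mul_sub, h1, h2]; omega
      have h4 := mul_left_cancel₀ hk0 h3
      omega
  let V : DV E := dvOfOre hLO j hj hfrac ww hmul hadd t ht hvt
  refine (Bdd.dv V j).mono fun m => ⟨k.natAbs * m, ?_⟩
  intro x hx
  by_cases hx0 : x = 0
  · exact Or.inl hx0
  right
  have hjx : j x ≠ 0 := fun h => hx0 (hj (by rw [h, map_zero]))
  have h1 : j x = 0 ∨ -(m : ℤ) ≤ vfrac j hfrac ww (j x) := hx
  have h2 := h1.resolve_left hjx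
  rw [vfrac_j hLO j hj hfrac ww hmul hx0] at h2
  simp only [hww] at h2
  rw [neg_mul, habs x hx0] at h2
  have h3 : w x / |k| ≤ m := by omega
  have h4 : |k| * (w x / |k|) = w x := Int.mul_ediv_cancel' ((abs_dvd k (w x)).mpr (hkw x hx0))
  rw [← h4]
  push_cast
  exact mul_le_mul_of_nonneg_left h3 hkpos.le

end Pool.Agent.W2helper6.FA
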