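import Pool.Agent.N506.EYI

/-!
# Rings which are free over a good ring, with finitely many bounding places
-/

namespace Pool.Agent.W2helper6.FA

open Pool.Agent.N506.EX

universe u v w

/-- The ring `R` is a free right module over `S` (which maps to `R` by `inc`) with the basis `e`. -/
def RightBasis {S R J : Type*} [Ring S] [Ring R] (inc : S →+* R) (e : J → R) : Prop :=
  Function.Bijective fun c : J →₀ S => c.sum fun j s => e j * inc s

section

variable {S R : Type*} [Ring S] [Ring R] {inc : S →+* R} {J : Type*} {e : J → R}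

/-- The additive map of a right basis. -/
noncomputable def comb (inc : S →+* R) (e : J → R) : (J →₀ S) →+ R :=
  Finsupp.liftAddHom fun j => (AddMonoidHom.mulLeft (e j)).comp inc.toAddMonoidHom

theorem comb_apply (c : J →₀ S) : comb inc e c = c.sum fun j s => e j * inc s := rfl

theorem comb_single (j : J) (s : S) : comb inc e (Finsupp.single j s) = e j * inc s := by
  rw [comb_apply, Finsupp.sum_single_index]
  rw [map_zero, mul_zero]

theorem RightBasis.bij (h : RightBasis inc e) : Function.Bijective (comb inc e) := h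

/-- Coordinates. -/
noncomputable def RightBasis.co (h : RightBasis inc e) : R ≃+ (J →₀ S) :=
  (AddEquiv.ofBijective (comb inc e) h.bij).symm

theorem RightBasis.comb_co (h : RightBasis inc e) (r : R) : comb inc e (h.co r) = r :=
  (AddEquiv.ofBijective (comb inc e) h.bij).apply_symm_apply r

theorem RightBasis.co_comb (h : RightBasis inc e) (c : J →₀ S) : h.co (comb inc e c) = c :=
  (AddEquiv.ofBijective (comb inc e) h.bij).symm_apply_apply c

theorem RightBasis.co_mul (h : RightBasis inc e) (r : R) (s : S) (j : J) :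
    h.co (r * inc s) j = h.co r j * s := by
  classical
  have h1 : r * inc s = comb inc e ((h.co r).mapRange (fun a => a * s) (zero_mul s)) := by
    conv_lhs => rw [← h.comb_co r]
    rw [comb_apply, comb_apply, Finsupp.sum_mapRange_index (by intro j; rw [map_zero, mul_zero]),
      Finsupp.sum, Finsupp.sum, Finset.sum_mul]
    refine Finset.sum_congr rfl fun j _ => ?_
    rw [map_mul, mul_assoc]
  rw [h1, h.co_comb, Finsupp.mapRange_apply]

theorem RightBasis.co_e [DecidableEq J] (h : RightBasis inc e) (i j : J) :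
    h.co (e i) j = if j = i then 1 else 0 := by
  have h1 : e i = comb inc e (Finsupp.single i 1) := by rw [comb_single, map_one, mul_one]
  rw [h1, h.co_comb, Finsupp.single_apply]
  by_cases h2 : j = i
  · rw [if_pos h2, if_pos h2.symm]
  · rw [if_neg h2, if_neg fun h3 => h2 h3.symm]

theorem RightBasis.sum_co (h : RightBasis inc e) (r : R) (U : Finset J)
    (hU : ∀ j, j ∉ U → h.co r j = 0) : ∑ j ∈ U, e j * inc (h.co r j) = r := by
  conv_rhs => rw [← h.comb_co r]
  rw [comb_apply, Finsupp.sum_of_support_subset _ (s := U)]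
  · intro j hj
    by_contra h1
    exact (Finsupp.mem_support_iff.mp hj) (hU j h1)
  · intro j _
    rw [map_zero, mul_zero]

end

section

variable {S R : Type u} [Ring S] [Ring R] {inc : S →+* R} {J : Type u} {e : J → R}

/-- The tower step: `R` is a free right module over a good ring `S`, and the elements of the sets
of a bounding family have coordinates in finite sets. -/
theorem good_free (h : RightBasis inc e) (j₀ : J) (hj₀ : e j₀ = 1) (O : ℕ → Set R)
    (hB : Bdd R O)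
    (hO : ∀ m (j : J), ∃ m', ∀ r ∈ O m, r * e j ∈ O m')
    (hmono : ∀ m n, m ≤ n → O m ⊆ O n)
    (T : ℕ → Finset J) (hT : ∀ m, ∀ r ∈ O m, ∀ j, j ∉ T m → h.co r j = 0) {d : ℕ}
    (hN : Good S d) : Good R (d + 3) := by
  classical
  intro X K B c W M hM Adj hAdj hF ε hε
  have hM3 : Sys R (3 + d) c W M := hM.le (by omega)
  have hF3 : FT (3 + d) W M Adj := hF.le (by omega)
  obtain ⟨m, hS⟩ := hB X K B c (fun ℓ => W (ℓ + d)) M (hM3.shift d) Adj hAdj (hF3.shift d) (ε / 2)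
    (by positivity)
  have hS' := hS.label c hAdj
  -- the windows
  have hstep : ∀ U : Finset J, ∃ U' : Finset J, U ⊆ U' ∧
      ∀ r ∈ O m, ∀ j ∈ U, ∀ i, i ∉ U' → h.co (r * e j) i = 0 := by
    intro U
    choose m' hm' using fun j => hO m j
    refine ⟨U ∪ T (U.sup m'), Finset.subset_union_left, ?_⟩
    intro r hr j hj i hi
    exact hT _ _ (hmono _ _ (Finset.le_sup hj) (hm' j r hr)) i
      fun h1 => hi (Finset.mem_union_right _ h1)
  choose next hnext1 hnext2 using hstep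
  obtain ⟨T', hT'0, hT's⟩ : ∃ T' : ℕ → Finset J, T' 0 = {j₀} ∧
      ∀ ℓ, T' (ℓ + 1) = next (T' ℓ) :=
    ⟨fun ℓ => Nat.rec {j₀} (fun _ U => next U) ℓ, rfl, fun _ => rfl⟩
  have hT'm : ∀ ℓ, T' ℓ ⊆ T' (ℓ + 1) := fun ℓ => by
    rw [hT's]
    exact hnext1 _
  have hT'mm : ∀ m n, m ≤ n → T' m ⊆ T' n := by
    intro m n hmn
    induction n, hmn using Nat.le_induction with
    | base => exact subset_rfl
    | succ n _ ih => exact ih.trans (hT'm n)
  have hT't : ∀ ℓ, ∀ r ∈ O m, ∀ j ∈ T' ℓ, ∀ i, i ∉ T' (ℓ + 1) → h.co (r * e j) i = 0 := by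
    intro ℓ r hr j hj i hi
    exact hnext2 _ r hr j hj i (by rwa [← hT's])
  refine WF.fib_exists hε (fun C : Set R => C.Finite)
    (fun C x y => c x = c y → ∀ β ∈ W 0, ∀ γ, M x y γ β ∈ C) hS' ?_
  intro Z π K' κ hκ
  have hκc : ∀ z z', κ z = κ z' → c (π z) = c (π z') := fun z z' h => (hκ z z' h).1
  have hκO : ∀ z z', κ z = κ z' → ∀ ℓ, ℓ ≤ d → ∀ β ∈ W ℓ, ∀ γ,
      M (π z) (π z') γ β ∈ O m := by
    intro z z' h1 ℓ hℓ β hβ γ
    exact (hκ z z' h1).2 β (hM.mono_le (by omega) hβ) γ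
  let A' : Z → Z → B × J → B × J → S :=
    fun z z' p q => h.co (M (π z) (π z') p.1 q.1 * e q.2) p.2
  let W' : ℕ → Finset (B × J) := fun ℓ => W ℓ ×ˢ T' ℓ
  have hW' : ∀ ℓ p, p ∈ W' ℓ ↔ p.1 ∈ W ℓ ∧ p.2 ∈ T' ℓ := fun ℓ p => Finset.mem_product
  -- decomposition
  have hdec : ∀ z z', κ z = κ z' → ∀ ℓ, ℓ ≤ d → ∀ β ∈ W ℓ, ∀ τ ∈ T' ℓ, ∀ γ,
      ∑ σ ∈ T' (ℓ + 1), e σ * inc (A' z z' (γ, σ) (β, τ)) = M (π z) (π z') γ β * e τ := by
    intro z z' h1 ℓ hℓ β hβ τ hτ γ
    exact h.sum_co _ _ (hT't ℓ _ (hκO z z' h1 ℓ hℓ β hβ γ) τ hτ)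
  have hA' : Sys S d κ W' A' :=
    { mono := by
        intro ℓ p hp
        rw [hW'] at hp ⊢
        exact ⟨hM.mono ℓ hp.1, hT'm ℓ hp.2⟩
      supp := by
        intro ℓ hℓ z z' h1 q hq p hp
        rw [hW'] at hq hp
        simp only [A']
        by_cases h2 : p.1 ∈ W (ℓ + 1)
        · exact hT't ℓ _ (hκO z z' h1 ℓ hℓ.le q.1 hq.1 p.1) q.2 hq.2 p.2 fun h3 => hp ⟨h2, h3⟩
        · rw [hM.supp ℓ (by omega) _ _ (hκc z z' h1) q.1 hq.1 p.1 h2, zero_mul, map_zero]
          rfl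
      refl := by
        intro ℓ hℓ z q hq
        rw [hW'] at hq
        obtain ⟨h1, h2⟩ := hM.refl ℓ (by omega) (π z) q.1 hq.1
        refine ⟨by simp only [A']; rw [h1, one_mul, h.co_e, if_pos rfl], fun p hp => ?_⟩
        simp only [A']
        by_cases h3 : p.1 = q.1
        · rw [h3, h1, one_mul, h.co_e, if_neg fun h4 => hp (Prod.ext h3 h4)]
        · rw [h2 p.1 h3, zero_mul, map_zero]
          rfl
      mul := by
        intro ℓ hℓ x y z h1 h2 q hq p
        rw [hW'] at hq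
        change h.co (M (π x) (π z) p.1 q.1 * e q.2) p.2 = _
        rw [hM.mul ℓ (by omega) _ _ _ (hκc x y h1) (hκc y z h2) q.1 hq.1 p.1, Finset.sum_mul,
          map_sum, Finsupp.finsetSum_apply, Finset.sum_product]
        refine Finset.sum_congr rfl fun γ _ => ?_
        rw [mul_assoc, ← hdec y z h2 ℓ (by omega) q.1 hq.1 q.2 hq.2 γ, Finset.mul_sum, map_sum,
          Finsupp.finsetSum_apply]
        refine Finset.sum_congr rfl fun σ _ => ?_
        rw [← mul_assoc, h.co_mul] }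
  have hF' : FT d W' A' (fun z z' => Adj (π z) (π z') ∧ κ z = κ z') := by
    have hfin : ∀ r : R, (⋃ τ ∈ (↑(T' d) : Set J), Set.range (h.co (r * e τ))).Finite :=
      fun r => (T' d).finite_toSet.biUnion fun τ _ => Finsupp.finite_range (h.co (r * e τ))
    refine Set.Finite.subset (hF.biUnion fun r _ => hfin r) ?_
    rintro r ⟨ℓ, hℓ, x, y, hxy, q, hq, p, h1⟩
    rw [hW'] at hq
    simp only [Set.mem_iUnion]
    rcases h1 with h1 | h1
    · exact ⟨_, ⟨ℓ, by omega, _, _, hxy.1, q.1, hq.1, p.1, Or.inl rfl⟩, q.2,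
        hT'mm ℓ d hℓ.le hq.2, p.2, h1.symm⟩
    · exact ⟨_, ⟨ℓ, by omega, _, _, hxy.1, q.1, hq.1, p.1, Or.inr rfl⟩, q.2,
        hT'mm ℓ d hℓ.le hq.2, p.2, h1.symm⟩
  obtain ⟨C', hC', hW⟩ := hN Z K' _ κ W' A' hA' (fun z z' => Adj (π z) (π z') ∧ κ z = κ z')
    (fun _ _ h => h.2) hF' (ε / 2) (by positivity)
  let F : ({x // x ∈ T' 1} → S) → R := fun b => ∑ σ : {x // x ∈ T' 1}, e σ.1 * inc (b σ)
  have hFC : (F '' {b | ∀ σ, b σ ∈ C'}).Finite := (Set.Finite.pi' fun _ => hC').image F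
  refine ⟨F '' {b | ∀ σ, b σ ∈ C'}, hFC, hW.mono (fun _ _ h => h) le_rfl ?_⟩
  intro z z' h1 hzz _ β hβ γ
  have h2 : j₀ ∈ T' 0 := by
    rw [hT'0]
    exact Finset.mem_singleton_self _
  have h3 := hdec z z' hzz 0 (by omega) β hβ j₀ h2 γ
  refine ⟨fun σ : {x // x ∈ T' 1} => A' z z' (γ, σ.1) (β, j₀), fun σ => h1 hzz (β, j₀)
    (by rw [hW']; exact ⟨hβ, h2⟩) (γ, σ.1), ?_⟩
  simp only [F]
  have h4 : ∑ σ : {x // x ∈ T' 1}, e σ.1 * inc (A' z z' (γ, σ.1) (β, j₀)) =
      M (π z) (π z') γ β * e j₀ := by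
    rw [← h3]
    exact Finset.sum_coe_sort (T' 1) (fun σ => e σ * inc (A' z z' (γ, σ) (β, j₀)))
  rw [h4, hj₀, mul_one]

end

end Pool.Agent.W2helper6.FA
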